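import Pool.Agent.Y149.CR.Bes

/-! Bessel's inequality for functions with a one-sided bound for the squares of their nonnegative
combinations. -/

set_option autoImplicit false

namespace Pool.Agent.Y149.LN

open Complex Filter Topology ComplexConjugate
open Pool.Agent.W540.BE
open Pool.Agent.Y149.CR (EP_mono' abs_EP_le)

variable {P : Type*} {N : P → ℕ}

theorem EP_sum1 (hN : NormSys N) {ε : ℝ} (hε : 0 < ε) {A : Type*} (S : Finset A) (w : A → ℝ)
    (φ : A → P → ℝ) {B : ℝ} (hφ : ∀ a ∈ S, ∀ p, |φ a p| ≤ B) :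
    EP N ε (fun p => ∑ a ∈ S, w a * φ a p) = ∑ a ∈ S, w a * EP N ε (φ a) := by
  have hb : ∀ a ∈ S, ∀ p, |w a * φ a p| ≤ |w a| * B := fun a ha p => by
    rw [abs_mul]
    exact mul_le_mul_of_nonneg_left (hφ a ha p) (abs_nonneg _)
  rw [EP_sum hN hε S (fun a p => w a * φ a p) (fun a => |w a| * B) hb]
  exact Finset.sum_congr rfl fun a _ => EP_const_mul _ _

/-- **Bessel's inequality.** -/
theorem bessel_D (hN : NormSys N) {lm : ℝ → ℝ} (hlm : Tendsto lm (𝓝[>] 0) atTop)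
    (h1 : Tendsto (fun ε : ℝ => EP N ε (fun _ => 1) / lm ε) (𝓝[>] 0) (𝓝 1))
    {A : Type*} (S : Finset A) (u : A → P → ℂ) (T : P → ℝ) {bu bT D : ℝ} (hD : 0 < D)
    (hbu : ∀ a p, ‖u a p‖ ≤ bu) (hbT : ∀ p, |T p| ≤ bT)
    (hV : ∀ B : ℝ, ∃ C : ℝ, ∀ᶠ ε : ℝ in 𝓝[>] 0, ∀ c : A → ℝ, (∀ a ∈ S, 0 ≤ c a ∧ c a ≤ B) →
      (EP N ε fun p => ‖∑ a ∈ S, (c a : ℂ) * u a p‖ ^ 2) ≤
        D * ((∑ a ∈ S, c a ^ 2) * lm ε) + C)
    (x : A → ℝ → ℝ) (hx : ∀ a ∈ S, Tendsto (fun ε : ℝ =>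
      (EP N ε fun p => T p * (u a p).re) / lm ε - x a ε) (𝓝[>] 0) (𝓝 0))
    {η : ℝ} (hη : 0 < η) :
    ∀ᶠ ε : ℝ in 𝓝[>] 0, ∑ a ∈ S, (max (x a ε) 0) ^ 2 ≤
      D * ((EP N ε fun p => T p ^ 2) / lm ε) + η := by
  classical
  rcases isEmpty_or_nonempty P with hP | hP
  · -- no primes: the hypotheses cannot hold
    have h0 : ∀ ε, EP N ε (fun _ => 1) = 0 := fun ε => by
      unfold EP
      exact tsum_empty
    have h2 : Tendsto (fun ε : ℝ => EP N ε (fun _ => 1) / lm ε) (𝓝[>] 0) (𝓝 0) :=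
      tendsto_const_nhds.congr fun ε => by rw [h0, zero_div]
    exact absurd (tendsto_nhds_unique h1 h2) one_ne_zero
  obtain ⟨p₀⟩ := hP
  have hbT0 : 0 ≤ bT := (abs_nonneg _).trans (hbT p₀)
  set Y : ℝ := 2 * (bT * |bu|) + 1 with hY
  have hY0 : 0 ≤ Y := by positivity
  obtain ⟨C, hC⟩ := hV Y
  set δ : ℝ := η / (4 * (S.card * Y + 1)) with hδ
  have hδ0 : 0 < δ := by positivity
  have ev2 : ∀ᶠ ε : ℝ in 𝓝[>] 0, ∀ a ∈ S,
      |(EP N ε fun p => T p * (u a p).re) / lm ε - x a ε| ≤ min δ 1 := by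
    rw [Filter.eventually_all_finset]
    intro a ha
    have h3 := (hx a ha).abs
    rw [abs_zero] at h3
    filter_upwards [h3.eventually_lt_const (lt_min hδ0 one_pos)] with ε hε using hε.le
  filter_upwards [hC, ev2, hlm.eventually_gt_atTop 0, h1.eventually_lt_const
    (by norm_num : (1 : ℝ) < 2), hlm.eventually_ge_atTop (2 * |C| / (D * η)), self_mem_nhdsWithin]
    with ε e1 e2 e4 e5 e7 e6
  have hε : (0 : ℝ) < ε := e6
  set w : A → ℝ := fun a => max (x a ε) 0 with hw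
  have hw0 : ∀ a, 0 ≤ w a := fun a => le_max_right _ _
  have hwx : ∀ a, w a * x a ε = w a ^ 2 := by
    intro a
    rw [hw]
    simp only
    rcases le_total (x a ε) 0 with h2 | h2
    · rw [max_eq_right h2]; ring
    · rw [max_eq_left h2]; ring
  have hTu : ∀ a p, |T p * (u a p).re| ≤ bT * |bu| := fun a p => by
    rw [abs_mul]
    exact mul_le_mul (hbT p) ((Complex.abs_re_le_norm _).trans ((hbu a p).trans (le_abs_self _)))
      (abs_nonneg _) hbT0
  have hwY : ∀ a ∈ S, w a ≤ Y := by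
    intro a ha
    refine max_le ?_ hY0
    have h2 := e2 a ha
    have h3 : |EP N ε fun p => T p * (u a p).re| ≤ (bT * |bu|) * EP N ε fun _ => 1 :=
      abs_EP_le hN hε (hTu a)
    have h4 : |(EP N ε fun p => T p * (u a p).re) / lm ε| ≤ 2 * (bT * |bu|) := by
      rw [abs_div, abs_of_pos e4, div_le_iff₀ e4]
      rw [div_lt_iff₀ e4] at e5
      have h5 : 0 ≤ bT * |bu| := by positivity
      nlinarith
    have h5 := (abs_le.1 (h2.trans (min_le_right _ _))).1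
    have h6 := (abs_le.1 h4).2
    linarith
  have hwc : ∀ a ∈ S, 0 ≤ w a ∧ w a ≤ Y := fun a ha => ⟨hw0 a, hwY a ha⟩
  have e1' := e1 w hwc
  set Q : ℝ := ∑ a ∈ S, w a ^ 2 with hQ
  -- the pointwise inequality
  have hpt : ∀ p, 2 * (∑ a ∈ S, w a * (T p * (u a p).re)) ≤
      D * T p ^ 2 + D⁻¹ * ‖∑ a ∈ S, (w a : ℂ) * u a p‖ ^ 2 := by
    intro p
    set Z := ∑ a ∈ S, (w a : ℂ) * u a p with hZ
    have q1 : ∑ a ∈ S, w a * (T p * (u a p).re) = T p * Z.re := by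
      rw [hZ, Complex.re_sum, Finset.mul_sum]
      refine Finset.sum_congr rfl fun a _ => ?_
      rw [Complex.re_ofReal_mul]
      ring
    have q2 : Z.re ^ 2 ≤ ‖Z‖ ^ 2 := by
      rw [← sq_abs Z.re]
      exact pow_le_pow_left₀ (abs_nonneg _) (Complex.abs_re_le_norm _) 2
    have q3 : 0 ≤ D⁻¹ * (D * T p - Z.re) ^ 2 := by positivity
    have q4 : D⁻¹ * (D * T p - Z.re) ^ 2 = D * T p ^ 2 - 2 * (T p * Z.re) + D⁻¹ * Z.re ^ 2 := by
      field_simp
      ring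
    have q5 : D⁻¹ * Z.re ^ 2 ≤ D⁻¹ * ‖Z‖ ^ 2 := mul_le_mul_of_nonneg_left q2 (by positivity)
    rw [q1]
    linarith
  have hZb : ∀ p, ‖∑ a ∈ S, (w a : ℂ) * u a p‖ ≤ S.card * (Y * |bu|) := by
    intro p
    refine (norm_sum_le _ _).trans ((Finset.sum_le_card_nsmul _ _ (Y * |bu|) fun a ha => ?_).trans
      (le_of_eq (nsmul_eq_mul _ _)))
    rw [norm_mul, Complex.norm_real, Real.norm_of_nonneg (hw0 a)]
    exact mul_le_mul (hwY a ha) ((hbu a p).trans (le_abs_self _)) (norm_nonneg _) hY0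
  have hZb2 : ∀ p, |‖∑ a ∈ S, (w a : ℂ) * u a p‖ ^ 2| ≤ (S.card * (Y * |bu|)) ^ 2 := by
    intro p
    rw [abs_of_nonneg (sq_nonneg _)]
    exact pow_le_pow_left₀ (norm_nonneg _) (hZb p) 2
  have hT2 : ∀ p, |T p ^ 2| ≤ bT ^ 2 := by
    intro p
    rw [abs_pow]
    exact pow_le_pow_left₀ (abs_nonneg _) (hbT p) 2
  have g1 : ∀ p, |2 * (∑ a ∈ S, w a * (T p * (u a p).re))| ≤ 2 * (S.card * (Y * (bT * |bu|))) := by
    intro p
    rw [abs_mul, abs_of_pos (by norm_num : (0 : ℝ) < 2)]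
    refine mul_le_mul_of_nonneg_left ((Finset.abs_sum_le_sum_abs _ _).trans
      ((Finset.sum_le_card_nsmul _ _ (Y * (bT * |bu|)) fun a ha => ?_).trans
      (le_of_eq (nsmul_eq_mul _ _)))) (by norm_num)
    rw [abs_mul, abs_of_nonneg (hw0 a)]
    exact mul_le_mul (hwY a ha) (hTu a p) (abs_nonneg _) hY0
  have g2 : ∀ p, |D * T p ^ 2| ≤ D * bT ^ 2 := fun p => by
    rw [abs_mul, abs_of_pos hD]
    exact mul_le_mul_of_nonneg_left (hT2 p) hD.le
  have g3 : ∀ p, |D⁻¹ * ‖∑ a ∈ S, (w a : ℂ) * u a p‖ ^ 2| ≤ D⁻¹ * (S.card * (Y * |bu|)) ^ 2 :=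
    fun p => by
    rw [abs_mul, abs_of_pos (inv_pos.2 hD)]
    exact mul_le_mul_of_nonneg_left (hZb2 p) (inv_pos.2 hD).le
  have h2 := EP_mono' hN hε g1 (fun p => (abs_add_le _ _).trans (add_le_add (g2 p) (g3 p))) hpt
  rw [EP_const_mul, EP_add hN hε g2 g3, EP_const_mul, EP_const_mul,
    EP_sum1 hN hε S w (fun a p => T p * (u a p).re) (fun a _ p => hTu a p)] at h2
  -- division by `lm`
  have h3 : 2 * ∑ a ∈ S, w a * ((EP N ε fun p => T p * (u a p).re) / lm ε) ≤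
      D * ((EP N ε fun p => T p ^ 2) / lm ε) + Q + |C| / (D * lm ε) := by
    have q1 : 2 * ∑ a ∈ S, w a * ((EP N ε fun p => T p * (u a p).re) / lm ε) =
        (2 * ∑ a ∈ S, w a * EP N ε fun p => T p * (u a p).re) / lm ε := by
      rw [mul_div_assoc, Finset.sum_div]
      congr 1
      exact Finset.sum_congr rfl fun a _ => by rw [mul_div_assoc]
    have q2 : D⁻¹ * (EP N ε fun p => ‖∑ a ∈ S, (w a : ℂ) * u a p‖ ^ 2) ≤
        D⁻¹ * (D * (Q * lm ε) + |C|) :=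
      mul_le_mul_of_nonneg_left (e1'.trans (by linarith [le_abs_self C])) (inv_pos.2 hD).le
    rw [q1, div_le_iff₀ e4]
    have q3 : (D * ((EP N ε fun p => T p ^ 2) / lm ε) + Q + |C| / (D * lm ε)) * lm ε =
        D * (EP N ε fun p => T p ^ 2) + D⁻¹ * (D * (Q * lm ε) + |C|) := by
      field_simp
      ring
    rw [q3]
    linarith
  have h4 : Q - S.card * (Y * δ) ≤ ∑ a ∈ S, w a * ((EP N ε fun p => T p * (u a p).re) / lm ε) := by
    have q1 : Q - S.card * (Y * δ) = ∑ a ∈ S, (w a * x a ε - Y * δ) := by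
      rw [Finset.sum_sub_distrib, Finset.sum_const, nsmul_eq_mul, hQ]
      congr 1
      exact Finset.sum_congr rfl fun a _ => (hwx a).symm
    rw [q1]
    refine Finset.sum_le_sum fun a ha => ?_
    have q2 := (abs_le.1 ((e2 a ha).trans (min_le_left _ _))).1
    have q3 : w a * (x a ε - (EP N ε fun p => T p * (u a p).re) / lm ε) ≤ Y * δ := by
      calc w a * (x a ε - (EP N ε fun p => T p * (u a p).re) / lm ε) ≤ w a * δ :=
            mul_le_mul_of_nonneg_left (by linarith) (hw0 a)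
        _ ≤ Y * δ := mul_le_mul_of_nonneg_right (hwY a ha) hδ0.le
    nlinarith
  have h5 : (S.card : ℝ) * (Y * δ) ≤ η / 4 := by
    have q0 : 0 ≤ (S.card : ℝ) * Y := by positivity
    have q1 : (S.card : ℝ) * (Y * δ) = η / 4 * ((S.card * Y) / (S.card * Y + 1)) := by
      rw [hδ]
      field_simp
    rw [q1]
    have q2 : (S.card : ℝ) * Y / (S.card * Y + 1) ≤ 1 := by
      rw [div_le_one (by positivity)]
      linarith
    nlinarith
  have h6 : |C| / (D * lm ε) ≤ η / 2 := by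
    rw [div_le_iff₀ (by positivity)]
    rw [div_le_iff₀ (by positivity)] at e7
    nlinarith
  linarith

end Pool.Agent.Y149.LN
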