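import Pool.Agent.Y722.EP.Defs
import Pool.Agent.W353.EH.Defs

/-!
# Products with elliptic curves on the edge line: definitions

`Y` is a projective variety over a number field `K` (for example `K = ℚ`), with Betti numbers
`N 0, N 1, …`, and `E : y² = x³ + a x + b` an elliptic curve over `ℚ`, `a, b ∈ ℤ`.  By the theorem of
Künneth `H^{j+1}(Y × E)` is the sum of `H^{j+1}(Y)`, `H^{j-1}(Y) ⊗ H²(E)` and `H^j(Y) ⊗ H¹(E)`, `j ≥ 1`.
The edge line of `L(H^i, s)` is the line `Re s = i/2 + 1`, the boundary of the half plane of absolute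
convergence; `edgePoint i τ = i/2 + 1 + iτ`.
-/

set_option autoImplicit false

namespace Pool.Agent.Y149.LN

open NumberField IsDedekindDomain Filter Topology Polynomial
open Pool.Agent.W353.EF (IsFrobenius LFun)
open Pool.Agent.W353.EH (edgePoint)

variable {K : Type} [Field K] [NumberField K] {n : ℕ}

/-- The polynomials `B v` are the Euler factors of `L(H^i(Y), s)`, where `Y` is the variety of dimension
`d` given by the equations `X`, and `N = dim H^i(Y)`: `B_v(z) = ∏ (1 - α_j z)` for almost all primes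
`v`, `α_j` the eigenvalues of Frobenius.  At the other primes `B v` is an arbitrary polynomial, and no
factor `1 / B_v(q_v^{-s})` has a pole on the edge line. -/
def IsEuler (X : Set (MvPolynomial (Fin n) (𝓞 K))) (d i N : ℕ)
    (B : HeightOneSpectrum (𝓞 K) → ℂ[X]) : Prop :=
  (∀ᶠ v in cofinite, ∃ α : Fin N → ℂ, IsFrobenius X d i v α ∧
    ∀ z : ℂ, (B v).eval z = ∏ j, (1 - α j * z)) ∧
  ∀ (τ : ℝ) (v : HeightOneSpectrum (𝓞 K)),
    (B v).eval ((Ideal.absNorm v.asIdeal : ℂ) ^ (-edgePoint i τ)) ≠ 0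

/-- The polynomials `B v` are the Euler factors of `L(H^{j+1}(Y × E), s)`, `j ≥ 1`.  For almost all
`v`, if `α_k`, `γ_k`, `δ_k` are the eigenvalues of Frobenius at `v` on `H^j(Y)`, `H^{j+1}(Y)` and
`H^{j-1}(Y)`, and `β, β'` those on `H¹(E)`, `β + β' = trace v a b`, `β β' = q_v`, then
`B_v(z) = ∏ (1 - γ_k z) ∏ (1 - q_v δ_k z) ∏ (1 - α_k β z) (1 - α_k β' z)`.
At the other primes `B v` is an arbitrary polynomial, and no factor `1 / B_v(q_v^{-s})` has a pole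
on the edge line. -/
def IsProduct (X : Set (MvPolynomial (Fin n) (𝓞 K))) (d : ℕ) (N : ℕ → ℕ) (j : ℕ) (a b : ℤ)
    (B : HeightOneSpectrum (𝓞 K) → ℂ[X]) : Prop :=
  (∀ᶠ v in cofinite, ∃ (α : Fin (N j) → ℂ) (γ : Fin (N (j + 1)) → ℂ) (δ : Fin (N (j - 1)) → ℂ),
    IsFrobenius X d j v α ∧ IsFrobenius X d (j + 1) v γ ∧ IsFrobenius X d (j - 1) v δ ∧
    ∀ z : ℂ, (B v).eval z =
      (∏ k, (1 - γ k * z)) * (∏ k, (1 - (Ideal.absNorm v.asIdeal : ℂ) * δ k * z)) *
      ∏ k, (1 - (Pool.Agent.Y722.EP.trace v a b : ℂ) * (α k * z) +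
        (Ideal.absNorm v.asIdeal : ℂ) * (α k * z) ^ 2)) ∧
  ∀ (τ : ℝ) (v : HeightOneSpectrum (𝓞 K)),
    (B v).eval ((Ideal.absNorm v.asIdeal : ℂ) ^ (-edgePoint (j + 1) τ)) ≠ 0

/-- The polynomials `B v` are the Euler factors of `L(H^j(Y) ⊗ H^j(Y), s)`:
`B_v(z) = ∏ ∏ (1 - α_k α_l z)` for almost all `v`; the others are arbitrary, without a pole of
`1 / B_v(q_v^{-s})` at `s = j + 1 = edgePoint (2 j) 0`. -/
def IsSquare (X : Set (MvPolynomial (Fin n) (𝓞 K))) (d j N : ℕ)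
    (B : HeightOneSpectrum (𝓞 K) → ℂ[X]) : Prop :=
  (∀ᶠ v in cofinite, ∃ α : Fin N → ℂ, IsFrobenius X d j v α ∧
    ∀ z : ℂ, (B v).eval z = ∏ k, ∏ l, (1 - α k * α l * z)) ∧
  ∀ v : HeightOneSpectrum (𝓞 K),
    (B v).eval ((Ideal.absNorm v.asIdeal : ℂ) ^ (-edgePoint (2 * j) 0)) ≠ 0

end Pool.Agent.Y149.LN
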