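import Pool.Agent.Y149.LN.Defs
import Pool.Agent.Y722.EP.Main
import Pool.Agent.Y677.SM.Two

/-! The size of the `L`-function of a product with an elliptic curve on the edge line. -/

set_option autoImplicit false

namespace Pool.Agent.Y149.LN

open Complex Filter Topology NumberField IsDedekindDomain Polynomial
open Pool.Agent.W540.BE Pool.Agent.W353.L1 Pool.Agent.W401.Cheb
open Pool.Agent.H341R2 (lam lam_tendsto)
open Pool.Agent.W353.PV (Eig alp tF pick_spec)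
open Pool.Agent.W353.EF (IsFrobenius LFun)
open Pool.Agent.W353.EH (edgePoint size)
open Pool.Agent.Y722.EP (rE rE_eq abs_rE rt rt_spec two_not_mem EP_fin prod_unique
  eig_of sqrt_nm_pos trace_bound)
open Pool.Agent.Y677.SM (EP_congr)

section
variable {K : Type} [Field K] [NumberField K]

/-- the real part of `q_v^{-iτ}` -/
noncomputable def zre (τ : ℝ) (v : HeightOneSpectrum (𝓞 K)) : ℝ := (zz τ v).re

theorem abs_zre_le (τ : ℝ) (v : HeightOneSpectrum (𝓞 K)) : |zre τ v| ≤ 1 := by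
  unfold zre
  exact (Complex.abs_re_le_norm _).trans (le_of_eq (norm_zz τ v))

/-- the size of an Euler product with given eigenvalues, at the height `τ` -/
theorem size_line (w : ℝ) {b : ℕ} (τ : ℝ) (α : HeightOneSpectrum (𝓞 K) → Fin b → ℂ)
    (B : HeightOneSpectrum (𝓞 K) → ℂ[X])
    (hα : ∀ᶠ v in cofinite, ((∀ j, ‖α v j‖ = (nm K v : ℝ) ^ w) ∧ (∑ j, α v j).im = 0) ∧
      ∀ z : ℂ, (B v).eval z = ∏ j, (1 - α v j * z))
    (hB0 : ∀ v, (B v).eval (((nm K v : ℕ) : ℂ) ^ (-(w + 1 + τ * I : ℂ))) ≠ 0) :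
    (∀ᶠ ε : ℝ in 𝓝[>] 0, LFun B (w + 1 + τ * I + ε) ≠ 0) ∧
    Tendsto (fun ε : ℝ => (EP (nm K) ε fun v => tr w α v * zre τ v) / lam ε -
      Real.log ‖LFun B (w + 1 + τ * I + ε)‖ / Real.log (1 / ε)) (𝓝[>] 0) (𝓝 0) := by
  classical
  choose σ hσ using exists_isFrob (F := K)
  have hsz := size_corr w α (hα.mono fun v hv j => hv.1.1 j) (hα.mono fun v hv => hv.1.2)
    (⊤ : Subgroup (GK K)) (n := 1) (1 : Representation ℂ (GK K) (Fin 1 → ℂ)) (fun _ _ => rfl) τ B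
    (hα.mono fun v hv g _ z => by
      rw [hv.2 z]
      refine Finset.prod_congr rfl fun j _ => ?_
      have e1 : (1 : Module.End ℂ (Fin 1 → ℂ)) - (α v j * z) •
          ((1 : Representation ℂ (GK K) (Fin 1 → ℂ)) g⁻¹) =
          (1 - α v j * z) • (1 : Module.End ℂ (Fin 1 → ℂ)) := by
        have e0 : (1 : Representation ℂ (GK K) (Fin 1 → ℂ)) g⁻¹ =
            (1 : Module.End ℂ (Fin 1 → ℂ)) := rfl
        rw [e0]
        refine LinearMap.ext fun x => ?_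
        rw [LinearMap.sub_apply, LinearMap.smul_apply, LinearMap.smul_apply,
          Module.End.one_apply]
        exact (by rw [sub_smul, one_smul] : x - (α v j * z) • x =
          ((1 : ℂ) - α v j * z) • x)
      rw [e1, LinearMap.det_smul]
      simp)
    hB0 (LFun B) (fun s _ => rfl) σ hσ
  refine ⟨hsz.1, hsz.2.congr fun ε => ?_⟩
  congr 2
  refine EP_congr fun v => ?_
  have e1 : (1 : Representation ℂ (GK K) (Fin 1 → ℂ)).character (σ v)⁻¹ = 1 := by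
    have e0 : (1 : Representation ℂ (GK K) (Fin 1 → ℂ)) (σ v)⁻¹ =
        (1 : Module.End ℂ (Fin 1 → ℂ)) := rfl
    unfold Representation.character
    rw [e0, LinearMap.trace_one]
    simp
  rw [e1, one_mul, Complex.re_ofReal_mul]
  rfl

end

section
variable {K : Type} [Field K] [NumberField K] {n : ℕ} {X : Set (MvPolynomial (Fin n) (𝓞 K))}
  {d : ℕ} {N : ℕ → ℕ}

/-- the eigenvalues on `H^{j+1}(Y × E)` -/
noncomputable def de (X : Set (MvPolynomial (Fin n) (𝓞 K))) (d : ℕ) (N : ℕ → ℕ) (j : ℕ) (a b : ℤ)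
    (v : HeightOneSpectrum (𝓞 K)) :
    Fin ((N (j + 1) + N (j - 1)) + (N j + N j)) → ℂ :=
  Fin.append (Fin.append (alp X d (j + 1) (N (j + 1)) K v)
      fun k => (nm K v : ℂ) * alp X d (j - 1) (N (j - 1)) K v k)
    (Fin.append (fun k => alp X d j (N j) K v k * (rt a b v).1)
      fun k => alp X d j (N j) K v k * (rt a b v).2)

theorem de_prod (j : ℕ) (a b : ℤ) (v : HeightOneSpectrum (𝓞 K)) (F : ℂ → ℂ) :
    ∏ k, F (de X d N j a b v k) = (∏ k, F (alp X d (j + 1) (N (j + 1)) K v k)) *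
      (∏ k, F ((nm K v : ℂ) * alp X d (j - 1) (N (j - 1)) K v k)) *
      ((∏ k, F (alp X d j (N j) K v k * (rt a b v).1)) *
        ∏ k, F (alp X d j (N j) K v k * (rt a b v).2)) := by
  unfold de
  rw [Fin.prod_univ_add, Fin.prod_univ_add, Fin.prod_univ_add]
  simp only [Fin.append_left, Fin.append_right]

theorem de_sum (j : ℕ) (a b : ℤ) (v : HeightOneSpectrum (𝓞 K)) :
    ∑ k, de X d N j a b v k = (∑ k, alp X d (j + 1) (N (j + 1)) K v k) +
      nm K v * (∑ k, alp X d (j - 1) (N (j - 1)) K v k) +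
      (∑ k, alp X d j (N j) K v k) * ((rt a b v).1 + (rt a b v).2) := by
  unfold de
  rw [Fin.sum_univ_add, Fin.sum_univ_add, Fin.sum_univ_add]
  simp only [Fin.append_left, Fin.append_right]
  rw [← Finset.sum_mul, ← Finset.sum_mul, ← Finset.mul_sum]
  ring

theorem de_all (j : ℕ) (a b : ℤ) (v : HeightOneSpectrum (𝓞 K)) {P : ℂ → Prop}
    (h1 : ∀ k, P (alp X d (j + 1) (N (j + 1)) K v k))
    (h2 : ∀ k, P ((nm K v : ℂ) * alp X d (j - 1) (N (j - 1)) K v k))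
    (h3 : ∀ k, P (alp X d j (N j) K v k * (rt a b v).1))
    (h4 : ∀ k, P (alp X d j (N j) K v k * (rt a b v).2))
    (k : Fin ((N (j + 1) + N (j - 1)) + (N j + N j))) : P (de X d N j a b v k) := by
  unfold de
  refine Fin.addCases (fun k => ?_) (fun k => ?_) k
  · rw [Fin.append_left]
    refine Fin.addCases (fun k => ?_) (fun k => ?_) k
    · rw [Fin.append_left]; exact h1 k
    · rw [Fin.append_right]; exact h2 k
  · rw [Fin.append_right]
    refine Fin.addCases (fun k => ?_) (fun k => ?_) k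
    · rw [Fin.append_left]; exact h3 k
    · rw [Fin.append_right]; exact h4 k

/-- good primes -/
structure Good (X : Set (MvPolynomial (Fin n) (𝓞 K))) (d : ℕ) (N : ℕ → ℕ) (j : ℕ)
    (v : HeightOneSpectrum (𝓞 K)) : Prop where
  one : Eig X d j v (alp X d j (N j) K v)
  two : Eig X d (j + 1) v (alp X d (j + 1) (N (j + 1)) K v)
  zer : Eig X d (j - 1) v (alp X d (j - 1) (N (j - 1)) K v)
  ne : (2 : 𝓞 K) ∉ v.asIdeal

theorem nm_pos' (v : HeightOneSpectrum (𝓞 K)) : (0 : ℝ) < nm K v := by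
  have := two_le_nm v
  exact_mod_cast (by omega : 0 < nm K v)

theorem nm_odd (j : ℕ) (v : HeightOneSpectrum (𝓞 K)) :
    (nm K v : ℝ) ^ ((j : ℝ) / 2) * Real.sqrt (nm K v) =
      (nm K v : ℝ) ^ (((j + 1 : ℕ) : ℝ) / 2) := by
  rw [Real.sqrt_eq_rpow, ← Real.rpow_add (nm_pos' v)]
  congr 1
  push_cast
  ring

theorem nm_low {j : ℕ} (hj : 1 ≤ j) (v : HeightOneSpectrum (𝓞 K)) :
    (nm K v : ℝ) * (nm K v : ℝ) ^ (((j - 1 : ℕ) : ℝ) / 2) =
      (nm K v : ℝ) ^ (((j + 1 : ℕ) : ℝ) / 2) := by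
  nth_rw 1 [← Real.rpow_one (nm K v : ℝ)]
  rw [← Real.rpow_add (nm_pos' v)]
  congr 1
  rw [Nat.cast_sub hj]
  push_cast
  ring

theorem Good.norm {j : ℕ} (hj : 1 ≤ j) {v : HeightOneSpectrum (𝓞 K)} (hg : Good X d N j v)
    (a b : ℤ) (k : Fin ((N (j + 1) + N (j - 1)) + (N j + N j))) :
    ‖de X d N j a b v k‖ = (nm K v : ℝ) ^ (((j + 1 : ℕ) : ℝ) / 2) := by
  obtain ⟨r1, r2, -, -⟩ := rt_spec hg.ne a b
  refine de_all (P := fun z => ‖z‖ = (nm K v : ℝ) ^ (((j + 1 : ℕ) : ℝ) / 2)) j a b v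
    (fun k => hg.two.norm k) (fun k => ?_) (fun k => ?_) (fun k => ?_) k
  · have h1 : ‖alp X d (j - 1) (N (j - 1)) K v k‖ =
        (nm K v : ℝ) ^ (((j - 1 : ℕ) : ℝ) / 2) := hg.zer.norm k
    rw [norm_mul, h1, Complex.norm_natCast, nm_low hj]
  · have h1 : ‖alp X d j (N j) K v k‖ = (nm K v : ℝ) ^ ((j : ℝ) / 2) := hg.one.norm k
    rw [norm_mul, h1, r1, nm_odd]
  · have h1 : ‖alp X d j (N j) K v k‖ = (nm K v : ℝ) ^ ((j : ℝ) / 2) := hg.one.norm k
    rw [norm_mul, h1, r2, nm_odd]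

theorem Good.im {j : ℕ} (hjd : j + 1 ≤ 2 * d) {v : HeightOneSpectrum (𝓞 K)}
    (hg : Good X d N j v) (a b : ℤ) : (∑ k, de X d N j a b v k).im = 0 := by
  obtain ⟨-, -, r3, -⟩ := rt_spec hg.ne a b
  rw [de_sum, r3, Complex.add_im, Complex.add_im, hg.two.im (by omega), Complex.mul_im,
    Complex.mul_im, hg.one.im (by omega), hg.zer.im (by omega), Complex.ofReal_im,
    Complex.natCast_im]
  ring

/-- the decomposition of the trace -/
theorem Good.trace {j : ℕ} (hj : 1 ≤ j) (hjd : j + 1 ≤ 2 * d) {v : HeightOneSpectrum (𝓞 K)}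
    (hg : Good X d N j v) (a b : ℤ) : tr (((j + 1 : ℕ) : ℝ) / 2) (de X d N j a b) v =
      tF X d (j + 1) (N (j + 1)) K v + tF X d (j - 1) (N (j - 1)) K v +
        tF X d j (N j) K v * rE a b v := by
  obtain ⟨-, -, r3, -⟩ := rt_spec hg.ne a b
  have hq := nm_pos' v
  have hs := sqrt_nm_pos v
  unfold tF tr
  rw [if_pos ⟨hg.norm hj a b, hg.im hjd a b⟩,
    if_pos ⟨fun k => hg.two.norm k, hg.two.im (by omega)⟩,
    if_pos ⟨fun k => hg.zer.norm k, hg.zer.im (by omega)⟩,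
    if_pos ⟨fun k => hg.one.norm k, hg.one.im (by omega)⟩, rE_eq hg.ne, Real.rpow_neg hq.le,
    Real.rpow_neg hq.le, Real.rpow_neg hq.le, de_sum, r3, Complex.add_re, Complex.add_re,
    Complex.mul_re, Complex.mul_re, Complex.ofReal_re, Complex.ofReal_im, Complex.natCast_re,
    Complex.natCast_im, mul_zero, sub_zero, zero_mul, sub_zero]
  have e1 : ((nm K v : ℝ) ^ (((j + 1 : ℕ) : ℝ) / 2))⁻¹ =
      ((nm K v : ℝ) ^ ((j : ℝ) / 2))⁻¹ * (Real.sqrt (nm K v))⁻¹ := by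
    rw [← mul_inv, nm_odd]
  have e2 : (nm K v : ℝ) * ((nm K v : ℝ) ^ (((j + 1 : ℕ) : ℝ) / 2))⁻¹ =
      ((nm K v : ℝ) ^ (((j - 1 : ℕ) : ℝ) / 2))⁻¹ := by
    rw [← nm_low hj v, mul_inv, ← mul_assoc, mul_inv_cancel₀ hq.ne', one_mul]
  have e3 : ∀ A B C D : ℝ, (A + (nm K v : ℝ) * B + C * D) *
      ((nm K v : ℝ) ^ (((j + 1 : ℕ) : ℝ) / 2))⁻¹ =
      A * ((nm K v : ℝ) ^ (((j + 1 : ℕ) : ℝ) / 2))⁻¹ +
      B * ((nm K v : ℝ) * ((nm K v : ℝ) ^ (((j + 1 : ℕ) : ℝ) / 2))⁻¹) +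
      C * D * ((nm K v : ℝ) ^ (((j + 1 : ℕ) : ℝ) / 2))⁻¹ := by
    intro A B C D
    ring
  rw [e3, e2]
  congr 1
  rw [e1]
  ring

theorem edge_eq (i : ℕ) (τ : ℝ) : ((((i : ℕ) : ℝ) / 2 : ℝ) : ℂ) + 1 + τ * I = edgePoint i τ := by
  unfold edgePoint
  push_cast
  rfl

/-- the size of the `L`-function of `H^i(Y)` -/
theorem base {i b : ℕ} (hi : i ≤ 2 * d) (τ : ℝ) {B₀ : HeightOneSpectrum (𝓞 K) → ℂ[X]}
    (h₀ : IsEuler X d i b B₀) :
    (∀ᶠ ε : ℝ in 𝓝[>] 0, LFun B₀ (edgePoint i τ + ε) ≠ 0) ∧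
    Tendsto (fun ε : ℝ => (EP (nm K) ε fun v => tF X d i b K v * zre τ v) / lam ε -
      size i τ B₀ ε) (𝓝[>] 0) (𝓝 0) := by
  have hg0 : ∀ᶠ v in cofinite, Eig X d i v (alp X d i b K v) ∧
      ∀ z : ℂ, (B₀ v).eval z = ∏ j, (1 - alp X d i b K v j * z) := by
    refine h₀.1.mono fun v hv => ?_
    obtain ⟨γ, h1, h2⟩ := hv
    refine ⟨pick_spec ⟨γ, h1⟩, fun z => ?_⟩
    rw [h2 z]
    exact prod_unique hi (eig_of h1) fun y => (1 - y * z)
  have hS0 := size_line ((i : ℝ) / 2) τ (alp X d i b K) B₀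
    (hg0.mono fun v hv => ⟨⟨fun j => hv.1.norm j, hv.1.im hi⟩, hv.2⟩) (by
      rw [edge_eq]
      exact h₀.2 τ)
  rw [edge_eq] at hS0
  exact hS0

/-- the size of the `L`-function of `H^j(Y) ⊗ H^j(Y)` at `s = j + 1` -/
theorem square {j b : ℕ} (hj : j ≤ 2 * d) {B₂ : HeightOneSpectrum (𝓞 K) → ℂ[X]}
    (h₂ : IsSquare X d j b B₂) :
    (∀ᶠ ε : ℝ in 𝓝[>] 0, LFun B₂ (edgePoint (2 * j) 0 + ε) ≠ 0) ∧
    Tendsto (fun ε : ℝ => (EP (nm K) ε fun v => tF X d j b K v ^ 2) / lam ε -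
      size (2 * j) 0 B₂ ε) (𝓝[>] 0) (𝓝 0) := by
  set α : HeightOneSpectrum (𝓞 K) → Fin (b * b) → ℂ := fun v m =>
    alp X d j b K v (finProdFinEquiv.symm m).1 * alp X d j b K v (finProdFinEquiv.symm m).2 with hα
  have hprod : ∀ (v : HeightOneSpectrum (𝓞 K)) (F : ℂ → ℂ), ∏ m, F (α v m) =
      ∏ k, ∏ l, F (alp X d j b K v k * alp X d j b K v l) := by
    intro v F
    rw [← finProdFinEquiv.prod_comp, Fintype.prod_prod_type]
    simp only [hα, Equiv.symm_apply_apply]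
  have hsum : ∀ v : HeightOneSpectrum (𝓞 K), ∑ m, α v m = (∑ k, alp X d j b K v k) ^ 2 := by
    intro v
    rw [← finProdFinEquiv.sum_comp, Fintype.sum_prod_type, sq, Finset.sum_mul_sum]
    simp only [hα, Equiv.symm_apply_apply]
  have hg : ∀ᶠ v in cofinite, Eig X d j v (alp X d j b K v) ∧
      ∀ z : ℂ, (B₂ v).eval z = ∏ m, (1 - α v m * z) := by
    refine h₂.1.mono fun v hv => ?_
    obtain ⟨γ, h1, h2⟩ := hv
    refine ⟨pick_spec ⟨γ, h1⟩, fun z => ?_⟩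
    rw [h2 z, hprod v fun y => 1 - y * z]
    have e1 : ∀ k, ∏ l, (1 - γ k * γ l * z) = ∏ l, (1 - γ k * alp X d j b K v l * z) :=
      fun k => prod_unique hj (eig_of h1) fun y => (1 - γ k * y * z)
    rw [Finset.prod_congr rfl fun k _ => e1 k]
    exact prod_unique hj (eig_of h1) fun y => ∏ l, (1 - y * alp X d j b K v l * z)
  have hre : ∀ {v : HeightOneSpectrum (𝓞 K)}, Eig X d j v (alp X d j b K v) →
      (∑ m, α v m).im = 0 := by
    intro v hv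
    rw [hsum, sq, Complex.mul_im, hv.im hj]
    ring
  have hnorm : ∀ {v : HeightOneSpectrum (𝓞 K)}, Eig X d j v (alp X d j b K v) →
      ∀ m, ‖α v m‖ = (nm K v : ℝ) ^ (j : ℝ) := by
    intro v hv m
    have h1 : ∀ k, ‖alp X d j b K v k‖ = (nm K v : ℝ) ^ ((j : ℝ) / 2) := fun k => hv.norm k
    rw [hα]
    simp only
    rw [norm_mul, h1, h1, ← Real.rpow_add (nm_pos' v)]
    congr 1
    ring
  have e0 : (((j : ℝ) : ℂ) + 1 + ((0 : ℝ) : ℂ) * I) = edgePoint (2 * j) 0 := by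
    unfold edgePoint
    push_cast
    ring
  have hS := size_line (j : ℝ) 0 α B₂
    (hg.mono fun v hv => ⟨⟨hnorm hv.1, hre hv.1⟩, hv.2⟩) (by
      intro v
      rw [e0]
      exact h₂.2 v)
  rw [e0] at hS
  refine ⟨hS.1, ?_⟩
  have hb1 : ∀ v, |tr (j : ℝ) α v * zre 0 v| ≤ ((b * b : ℕ) : ℝ) := fun v => by
    rw [abs_mul]
    have h1 := abs_tr_le (j : ℝ) α v
    have h2 := abs_zre_le (K := K) 0 v
    nlinarith [abs_nonneg (tr (j : ℝ) α v), abs_nonneg (zre (K := K) 0 v)]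
  have hb2 : ∀ v, |tF X d j b K v ^ 2| ≤ (b : ℝ) ^ 2 := fun v => by
    rw [abs_pow]
    exact pow_le_pow_left₀ (abs_nonneg _) (abs_tr_le _ _ _) 2
  have hN : NormSys (nm K) := normSys
  have hφ0 := EP_fin (φ := fun v => tF X d j b K v ^ 2 + (-1) * (tr (j : ℝ) α v * zre 0 v))
    (B := (b : ℝ) ^ 2 + ((b * b : ℕ) : ℝ)) (fun v => (abs_add_le _ _).trans (add_le_add (hb2 v) (by
      rw [abs_mul, abs_neg, abs_one, one_mul]; exact hb1 v))) (hg.mono fun v hv => by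
      have e1 : zre (K := K) 0 v = 1 := by
        unfold zre zz
        simp
      have h1 : ∀ k, ‖alp X d j b K v k‖ = (nm K v : ℝ) ^ ((j : ℝ) / 2) := fun k => hv.1.norm k
      unfold tF tr
      rw [if_pos ⟨h1, hv.1.im hj⟩, if_pos ⟨hnorm hv.1, hre hv.1⟩, e1, hsum]
      have e2 : ((∑ k, alp X d j b K v k) ^ 2).re = (∑ k, alp X d j b K v k).re ^ 2 := by
        rw [sq, Complex.mul_re, hv.1.im hj]
        ring
      rw [e2, mul_pow, ← Real.rpow_natCast ((nm K v : ℝ) ^ (-((j : ℝ) / 2))) 2,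
        ← Real.rpow_mul (nm_pos' v).le]
      have e3 : -((j : ℝ) / 2) * ((2 : ℕ) : ℝ) = -(j : ℝ) := by push_cast; ring
      rw [e3]
      ring)
  have h1 := hφ0.add hS.2
  rw [add_zero] at h1
  refine h1.congr' ?_
  filter_upwards [self_mem_nhdsWithin] with ε hε
  have hε' : (0 : ℝ) < ε := hε
  rw [EP_add hN hε' hb2 (φ := fun v => tF X d j b K v ^ 2)
    (ψ := fun v => (-1) * (tr (j : ℝ) α v * zre 0 v)) (B' := ((b * b : ℕ) : ℝ)) (fun v => by
      rw [abs_mul, abs_neg, abs_one, one_mul]; exact hb1 v), EP_const_mul]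
  have e4 : Real.log ‖LFun B₂ (edgePoint (2 * j) 0 + ε)‖ / Real.log (1 / ε) =
    size (2 * j) 0 B₂ ε := rfl
  rw [e4]
  ring

/-- **The size of `L(H^j(Y) ⊗ H¹(E))`.** -/
theorem link {j : ℕ} (hj : 1 ≤ j) (hjd : j + 1 ≤ 2 * d) (a b : ℤ) (τ : ℝ)
    {B₀ B₁ B : HeightOneSpectrum (𝓞 K) → ℂ[X]}
    (h₀ : IsEuler X d (j + 1) (N (j + 1)) B₀) (h₁ : IsEuler X d (j - 1) (N (j - 1)) B₁)
    (hB : IsProduct X d N j a b B) :
    (∀ᶠ ε : ℝ in 𝓝[>] 0, LFun B (edgePoint (j + 1) τ + ε) ≠ 0) ∧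
    Tendsto (fun ε : ℝ => (EP (nm K) ε fun v =>
      tF X d j (N j) K v * (rE a b v * zre τ v)) / lam ε -
      (size (j + 1) τ B ε - size (j + 1) τ B₀ ε - size (j - 1) τ B₁ ε)) (𝓝[>] 0) (𝓝 0) := by
  -- the good primes
  have hg : ∀ᶠ v in cofinite, Good X d N j v ∧ ∀ z : ℂ,
      (B v).eval z = ∏ k, (1 - de X d N j a b v k * z) := by
    filter_upwards [hB.1, two_not_mem (K := K)] with v hv h2
    obtain ⟨α, γ, δ, h3, h4, h6, h5⟩ := hv
    have g1 : Eig X d j v (alp X d j (N j) K v) := pick_spec ⟨α, h3⟩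
    have g2 : Eig X d (j + 1) v (alp X d (j + 1) (N (j + 1)) K v) := pick_spec ⟨γ, h4⟩
    have g3 : Eig X d (j - 1) v (alp X d (j - 1) (N (j - 1)) K v) := pick_spec ⟨δ, h6⟩
    refine ⟨⟨g1, g2, g3, h2⟩, fun z => ?_⟩
    obtain ⟨-, -, r3, r4⟩ := rt_spec h2 a b
    have e1 := prod_unique (i := j) (by omega) (eig_of h3) fun y =>
      (1 - (Pool.Agent.Y722.EP.trace v a b : ℂ) * (y * z) +
        (Ideal.absNorm v.asIdeal : ℂ) * (y * z) ^ 2)
    have e2 := prod_unique (i := j + 1) (by omega) (eig_of h4) fun y => (1 - y * z)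
    have e6 := prod_unique (i := j - 1) (by omega) (eig_of h6) fun y =>
      (1 - (Ideal.absNorm v.asIdeal : ℂ) * y * z)
    rw [h5 z, e1, e2, e6, de_prod j a b v fun y => 1 - y * z, ← Finset.prod_mul_distrib]
    have e3 : ∀ k, (1 - alp X d j (N j) K v k * (rt a b v).1 * z) *
        (1 - alp X d j (N j) K v k * (rt a b v).2 * z) =
        1 - (Pool.Agent.Y722.EP.trace v a b : ℂ) * (alp X d j (N j) K v k * z) +
          (Ideal.absNorm v.asIdeal : ℂ) * (alp X d j (N j) K v k * z) ^ 2 := by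
      intro k
      have r3' : (rt a b v).1 + (rt a b v).2 = (Pool.Agent.Y722.EP.trace v a b : ℂ) := by
        rw [r3]; push_cast; rfl
      have r4' : (rt a b v).1 * (rt a b v).2 = (Ideal.absNorm v.asIdeal : ℂ) := by
        rw [r4]; push_cast; rfl
      rw [← r3', ← r4']
      ring
    rw [Finset.prod_congr rfl fun k _ => e3 k]
    have e4 : ((nm K v : ℕ) : ℂ) = (Ideal.absNorm v.asIdeal : ℂ) := rfl
    rw [e4]
  have hS := size_line (((j + 1 : ℕ) : ℝ) / 2) τ (de X d N j a b) B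
    (hg.mono fun v hv => ⟨⟨hv.1.norm hj a b, hv.1.im hjd a b⟩, hv.2⟩) (by
      rw [edge_eq]
      exact hB.2 τ)
  have hS0 := base (by omega) τ h₀
  have hS1 := base (by omega) τ h₁
  rw [edge_eq] at hS
  refine ⟨hS.1, ?_⟩
  have hN : NormSys (nm K) := normSys
  -- the difference of the traces
  set f2 : HeightOneSpectrum (𝓞 K) → ℝ := fun v => tF X d (j + 1) (N (j + 1)) K v * zre τ v with hf2
  set f0 : HeightOneSpectrum (𝓞 K) → ℝ := fun v => tF X d (j - 1) (N (j - 1)) K v * zre τ v with hf0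
  set f1 : HeightOneSpectrum (𝓞 K) → ℝ := fun v =>
    tF X d j (N j) K v * (rE a b v * zre τ v) with hf1
  set f3 : HeightOneSpectrum (𝓞 K) → ℝ := fun v =>
    tr (((j + 1 : ℕ) : ℝ) / 2) (de X d N j a b) v * zre τ v with hf3
  have hmz : ∀ (x : ℝ) (v : HeightOneSpectrum (𝓞 K)) (b : ℝ), |x| ≤ b → |x * zre τ v| ≤ b := by
    intro x v b hx
    rw [abs_mul]
    have h2 := abs_zre_le τ v
    nlinarith [abs_nonneg x, abs_nonneg (zre τ v)]
  have hb1 : ∀ v, |f2 v| ≤ (N (j + 1) : ℝ) := fun v => hmz _ v _ (abs_tr_le _ _ _)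
  have hb0 : ∀ v, |f0 v| ≤ (N (j - 1) : ℝ) := fun v => hmz _ v _ (abs_tr_le _ _ _)
  have hb2 : ∀ v, |f1 v| ≤ (N j : ℝ) * 2 := by
    intro v
    rw [hf1]
    simp only
    rw [abs_mul]
    exact mul_le_mul (abs_tr_le _ _ _) (hmz _ v _ (abs_rE _ _ _)) (abs_nonneg _)
      (Nat.cast_nonneg _)
  have hb3 : ∀ v, |f3 v| ≤ (((N (j + 1) + N (j - 1)) + (N j + N j) : ℕ) : ℝ) :=
    fun v => hmz _ v _ (abs_tr_le _ _ _)
  have hb5 : ∀ v, |f0 v + f1 v| ≤ (N (j - 1) : ℝ) + (N j : ℝ) * 2 := fun v =>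
    (abs_add_le _ _).trans (add_le_add (hb0 v) (hb2 v))
  have hb6 : ∀ v, |f2 v + (f0 v + f1 v)| ≤
      (N (j + 1) : ℝ) + ((N (j - 1) : ℝ) + (N j : ℝ) * 2) := fun v =>
    (abs_add_le _ _).trans (add_le_add (hb1 v) (hb5 v))
  have hb7 : ∀ v, |(-1) * (f2 v + (f0 v + f1 v))| ≤
      (N (j + 1) : ℝ) + ((N (j - 1) : ℝ) + (N j : ℝ) * 2) := fun v => by
    rw [abs_mul, abs_neg, abs_one, one_mul]
    exact hb6 v
  have hφ0 := EP_fin (φ := fun v => f3 v + (-1) * (f2 v + (f0 v + f1 v)))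
    (fun v => (abs_add_le _ _).trans (add_le_add (hb3 v) (hb7 v))) (hg.mono fun v hv => by
      rw [hf3, hf2, hf0, hf1]
      simp only
      rw [hv.1.trace hj hjd]
      ring)
  have h1 := ((hS.2.sub hS0.2).sub hS1.2).sub hφ0
  have e0 : (0 : ℝ) - 0 - 0 - 0 = 0 := by norm_num
  rw [e0] at h1
  refine h1.congr' ?_
  filter_upwards [self_mem_nhdsWithin] with ε hε
  have hε' : (0 : ℝ) < ε := hε
  have e2 : EP (nm K) ε (fun v => f3 v + (-1) * (f2 v + (f0 v + f1 v))) =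
      EP (nm K) ε f3 - (EP (nm K) ε f2 + (EP (nm K) ε f0 + EP (nm K) ε f1)) := by
    rw [EP_add hN hε' hb3 hb7, EP_const_mul, EP_add hN hε' hb1 hb5, EP_add hN hε' hb0 hb2]
    ring
  rw [e2]
  have e3 : Real.log ‖LFun B (edgePoint (j + 1) τ + ε)‖ / Real.log (1 / ε) =
    size (j + 1) τ B ε := rfl
  rw [e3]
  ring

end

end Pool.Agent.Y149.LN
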