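import Pool.Agent.Y149.LN.Push
import Pool.Agent.Y149.LN.BesK
import Pool.Agent.Y149.LN.Link

/-! The family of all modular elliptic curves over the rationals and all heights, over a number field. -/

set_option autoImplicit false

namespace Pool.Agent.Y149.LN

open Complex Filter Topology ComplexConjugate NumberField IsDedekindDomain CongruenceSubgroup
open Pool.Agent.W540.BE Pool.Agent.W353.L1
open Pool.Agent.H341R2 (E lam lam_tendsto lam_bounded)
open Pool.Agent.H921R2.TatePole (kerPrime C0)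
open Pool.Agent.Y149.CR (EP_sum2 norm_sum_sq zr cross_le_t)
open Pool.Agent.Y722.EP (IsModular IsNewformOf NotIsogenous rE abs_rE rE_kerPrime finite_dvd)
open Pool.Agent.Y722.RS (S2 rc tt tt_le cross_le self_le)
open Pool.Agent.TH941 (Hecke)

theorem normSysP : NormSys fun p : Nat.Primes => (p : ℕ) :=
  ⟨fun p => p.2.two_le, fun _ hr => Nat.Primes.summable_rpow.2 hr⟩

theorem E_eq_EP (ε : ℝ) (φ : Nat.Primes → ℝ) : E ε φ = EP (fun p : Nat.Primes => (p : ℕ)) ε φ := rfl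

section
variable {ι : Type*} {M : ι → ℕ} [∀ i, NeZero (M i)] (f : ∀ i, S2 (M i))

/-- the normalised eigenvalue at a height -/
noncomputable def wP (a : ι × ℝ) (p : Nat.Primes) : ℂ :=
  (tt (f a.1) p : ℂ) * ((p : ℕ) : ℂ) ^ (-((a.2 : ℂ) * I))

theorem norm_pI (τ : ℝ) (p : Nat.Primes) : ‖((p : ℕ) : ℂ) ^ (-((τ : ℂ) * I))‖ = 1 := by
  rw [Complex.norm_natCast_cpow_of_pos p.2.pos]
  simp

variable {f} in
theorem norm_wP {a : ι × ℝ} (hf : Hecke (f a.1)) (p : Nat.Primes) : ‖wP f a p‖ ≤ 2 := by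
  unfold wP
  rw [norm_mul, norm_pI, mul_one, Complex.norm_real, Real.norm_eq_abs]
  exact tt_le hf p.2

theorem wP_re (a b : ι × ℝ) (p : Nat.Primes) :
    (wP f a p * conj (wP f b p)).re = tt (f a.1) p * tt (f b.1) p * zr (a.2 - b.2) p := by
  have hpc : ((p : ℕ) : ℂ) ≠ 0 := by exact_mod_cast p.2.ne_zero
  have harg : ((p : ℕ) : ℂ).arg ≠ Real.pi := by
    rw [Complex.natCast_arg]
    exact Real.pi_pos.ne
  have e0 : conj (((p : ℕ) : ℂ) ^ (-((b.2 : ℂ) * I))) = ((p : ℕ) : ℂ) ^ ((b.2 : ℂ) * I) := by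
    have h1 := Complex.cpow_conj ((p : ℕ) : ℂ) (-((b.2 : ℂ) * I)) harg
    rw [Complex.conj_natCast] at h1
    rw [← h1]
    congr 1
    simp
  have e1 : wP f a p * conj (wP f b p) = ((tt (f a.1) p * tt (f b.1) p : ℝ) : ℂ) *
      ((p : ℕ) : ℂ) ^ (-(((a.2 - b.2 : ℝ) : ℂ) * I)) := by
    unfold wP
    rw [map_mul, Complex.conj_ofReal, e0]
    have e2 : ((p : ℕ) : ℂ) ^ (-(((a.2 - b.2 : ℝ) : ℂ) * I)) =
        ((p : ℕ) : ℂ) ^ (-((a.2 : ℂ) * I)) * ((p : ℕ) : ℂ) ^ ((b.2 : ℂ) * I) := by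
      rw [← Complex.cpow_add _ _ hpc]
      congr 1
      push_cast
      ring
    rw [e2]
    push_cast
    ring
  rw [e1, Complex.re_ofReal_mul]
  rfl

variable {f} in
/-- the one-sided orthogonality over the prime numbers -/
theorem sumP (S : Finset (ι × ℝ)) (hf : ∀ a ∈ S, Hecke (f a.1))
    (hne : ∀ a ∈ S, ∀ b ∈ S, a.1 ≠ b.1 → ∃ p : ℕ, p.Prime ∧ ¬ p ∣ M a.1 ∧ ¬ p ∣ M b.1 ∧
      rc (f a.1) p ≠ rc (f b.1) p) (B : ℝ) :
    ∃ C : ℝ, 0 ≤ C ∧ ∀ᶠ ε : ℝ in 𝓝[>] 0, ∀ c : ι × ℝ → ℝ, (∀ a ∈ S, 0 ≤ c a ∧ c a ≤ B) →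
      (E ε fun p => ‖∑ a ∈ S, (c a : ℂ) * wP f a p‖ ^ 2) ≤ (∑ a ∈ S, c a ^ 2) * lam ε + C := by
  classical
  have hex : ∀ a b : ι × ℝ, ∃ C : ℝ, a ∈ S → b ∈ S → ∀ᶠ ε : ℝ in 𝓝[>] 0,
      (E ε fun p => (wP f a p * conj (wP f b p)).re) ≤ (if a = b then lam ε else 0) + C := by
    intro a b
    by_cases hab : a ∈ S ∧ b ∈ S
    · by_cases he : a = b
      · subst he
        obtain ⟨C', hC'⟩ := self_le (hf a hab.1)
        obtain ⟨C'', hC''⟩ := lam_bounded
        refine ⟨C'' + C', fun _ _ => ?_⟩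
        filter_upwards [hC', hC''] with ε h1 h4
        rw [if_pos rfl]
        have h5 := (abs_le.1 h4).1
        have h6 : Real.log (1 / ε) = -Real.log ε := by rw [one_div, Real.log_inv]
        rw [h6] at h1
        have e1 : (E ε fun p => (wP f a p * conj (wP f a p)).re) =
            E ε fun p : Nat.Primes => tt (f a.1) p * tt (f a.1) p := by
          congr 1
          funext p
          rw [wP_re, sub_self, Pool.Agent.Y149.CR.zr_zero, mul_one]
        rw [e1]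
        linarith
      · have e1 : ∀ ε, (E ε fun p => (wP f a p * conj (wP f b p)).re) =
            E ε fun p : Nat.Primes => tt (f a.1) p * tt (f b.1) p * zr (a.2 - b.2) p := by
          intro ε
          congr 1
          funext p
          exact wP_re f a b p
        rcases eq_or_ne a.2 b.2 with h2 | h2
        · have h1 : a.1 ≠ b.1 := fun h1 => he (Prod.ext h1 h2)
          obtain ⟨p, hp, hp1, hp2, hp3⟩ := hne a hab.1 b hab.2 h1
          obtain ⟨C, hC⟩ := cross_le (hf a hab.1) (hf b hab.2) hp hp1 hp2 hp3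
          refine ⟨C, fun _ _ => hC.mono fun ε h3 => ?_⟩
          rw [if_neg he, zero_add, e1]
          simp only [h2, sub_self, Pool.Agent.Y149.CR.zr_zero, mul_one]
          exact h3
        · obtain ⟨C, hC⟩ := cross_le_t (hf a hab.1) (hf b hab.2) (sub_ne_zero.2 h2)
          refine ⟨C, fun _ _ => hC.mono fun ε h3 => ?_⟩
          rw [if_neg he, zero_add, e1]
          exact h3
    · exact ⟨0, fun h1 h2 => absurd ⟨h1, h2⟩ hab⟩
  choose C hC using hex
  refine ⟨∑ a ∈ S, ∑ b ∈ S, B ^ 2 * |C a b|, by positivity, ?_⟩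
  have hev : ∀ᶠ ε : ℝ in 𝓝[>] 0, ∀ a ∈ S, ∀ b ∈ S,
      (E ε fun p => (wP f a p * conj (wP f b p)).re) ≤ (if a = b then lam ε else 0) + C a b := by
    rw [Filter.eventually_all_finset]
    intro a ha
    rw [Filter.eventually_all_finset]
    exact fun b hb => hC a b ha hb
  filter_upwards [hev, self_mem_nhdsWithin] with ε h1 h2 c hc
  have hε : (0 : ℝ) < ε := h2
  have e1 : (E ε fun p => ‖∑ a ∈ S, (c a : ℂ) * wP f a p‖ ^ 2) =
      ∑ a ∈ S, ∑ b ∈ S, (c a * c b) * E ε fun p => (wP f a p * conj (wP f b p)).re := by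
    have e2 : (E ε fun p => ‖∑ a ∈ S, (c a : ℂ) * wP f a p‖ ^ 2) =
        EP (fun p : Nat.Primes => (p : ℕ)) ε fun p =>
          ∑ a ∈ S, ∑ b ∈ S, (c a * c b) * (wP f a p * conj (wP f b p)).re := by
      rw [E_eq_EP]
      congr 1
      funext p
      exact norm_sum_sq S c fun a => wP f a p
    rw [e2, EP_sum2 normSysP hε S S (fun a b => c a * c b)
      (fun a b p => (wP f a p * conj (wP f b p)).re) (fun _ _ => 4) (fun a ha b hb p => by
        refine (Complex.abs_re_le_norm _).trans ?_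
        rw [norm_mul, Complex.norm_conj]
        have h3 := mul_le_mul (norm_wP (hf a ha) p) (norm_wP (hf b hb) p) (norm_nonneg _)
          (by norm_num)
        linarith)]
    rfl
  rw [e1, Finset.sum_mul, ← Finset.sum_add_distrib]
  refine Finset.sum_le_sum fun a ha => ?_
  have e3 : c a ^ 2 * lam ε = ∑ b ∈ S, if a = b then c a ^ 2 * lam ε else 0 := by
    rw [Finset.sum_ite_eq, if_pos ha]
  rw [e3, ← Finset.sum_add_distrib]
  refine Finset.sum_le_sum fun b hb => ?_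
  have hca := hc a ha
  have hcb := hc b hb
  have hcc0 : 0 ≤ c a * c b := mul_nonneg hca.1 hcb.1
  have hcc1 : c a * c b ≤ B ^ 2 := by
    rw [sq]
    exact mul_le_mul hca.2 hcb.2 hcb.1 (hca.1.trans hca.2)
  have h3 := mul_le_mul_of_nonneg_left (h1 a ha b hb) hcc0
  refine h3.trans ?_
  rw [mul_add]
  refine add_le_add ?_ ?_
  · by_cases hab : a = b
    · subst hab
      rw [if_pos rfl, if_pos rfl, sq]
    · rw [if_neg hab, if_neg hab, mul_zero]
  · calc c a * c b * C a b ≤ c a * c b * |C a b| :=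
          mul_le_mul_of_nonneg_left (le_abs_self _) hcc0
      _ ≤ B ^ 2 * |C a b| := mul_le_mul_of_nonneg_right hcc1 (abs_nonneg _)

end

section
variable {K : Type} [Field K] [NumberField K] {ι : Type*} {a b : ι → ℤ}

/-- the normalised trace of Frobenius at a height -/
noncomputable def uK (a b : ι → ℤ) (x : ι × ℝ) (v : HeightOneSpectrum (𝓞 K)) : ℂ :=
  (rE (a x.1) (b x.1) v : ℂ) * zz x.2 v

theorem norm_uK (x : ι × ℝ) (v : HeightOneSpectrum (𝓞 K)) : ‖uK a b x v‖ ≤ 2 := by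
  unfold uK
  rw [norm_mul, norm_zz, mul_one, Complex.norm_real, Real.norm_eq_abs]
  exact abs_rE _ _ v

theorem uK_re (x : ι × ℝ) (v : HeightOneSpectrum (𝓞 K)) :
    (uK a b x v).re = rE (a x.1) (b x.1) v * zre x.2 v := by
  unfold uK
  rw [Complex.re_ofReal_mul]
  rfl

/-- **One-sided orthogonality over `K`.** -/
theorem sumK (S : Finset (ι × ℝ)) (hΔ : ∀ x ∈ S, 4 * a x.1 ^ 3 + 27 * b x.1 ^ 2 ≠ 0)
    (hmod : ∀ x ∈ S, IsModular (a x.1) (b x.1))
    (hne : ∀ x ∈ S, ∀ y ∈ S, x.1 ≠ y.1 → NotIsogenous (a x.1) (b x.1) (a y.1) (b y.1))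
    (B : ℝ) : ∃ C : ℝ, ∀ᶠ ε : ℝ in 𝓝[>] 0, ∀ c : ι × ℝ → ℝ, (∀ x ∈ S, 0 ≤ c x ∧ c x ≤ B) →
      (EP (nm K) ε fun v => ‖∑ x ∈ S, (c x : ℂ) * uK a b x v‖ ^ 2) ≤
        Module.finrank ℚ K * ((∑ x ∈ S, c x ^ 2) * lam ε) + C := by
  classical
  have hch : ∀ i : ι, ∃ (N : ℕ) (_ : NeZero N) (f : S2 N),
      (∃ x ∈ S, x.1 = i) → IsNewformOf f (a i) (b i) := by
    intro i
    by_cases hi : ∃ x ∈ S, x.1 = i
    · obtain ⟨x, hx, rfl⟩ := hi
      obtain ⟨N, hN, f, hf⟩ := hmod x hx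
      exact ⟨N, hN, f, fun _ => hf⟩
    · exact ⟨1, inferInstance, 0, fun h => absurd h hi⟩
  choose N hN f hf using hch
  have hf' : ∀ x ∈ S, IsNewformOf (f x.1) (a x.1) (b x.1) := fun x hx => hf x.1 ⟨x, hx, rfl⟩
  obtain ⟨C, hC0, hC⟩ := sumP (f := f) S (fun x hx => (hf' x hx).1) (fun x hx y hy hxy => by
    obtain ⟨p, hp, h1, h2, h3⟩ := hne x hx y hy hxy
    obtain ⟨h4, h5⟩ := (hf' x hx).2 p hp h1
    obtain ⟨h6, h7⟩ := (hf' y hy).2 p hp h2
    refine ⟨p, hp, h4, h6, ?_⟩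
    unfold rc
    rw [h5, h7]
    intro h
    apply h3
    simp at h
    exact_mod_cast h) B
  set G : ℝ := (S.card * (|B| * 2)) ^ 2 with hG
  set Bad : Finset Nat.Primes := S.biUnion fun x => if hx : x ∈ S then
      (finite_dvd (mul_ne_zero two_ne_zero (hΔ x hx))).toFinset else ∅ with hBad
  have hbad : ∀ p ∉ Bad, ∀ x ∈ S, ¬ ((p : ℕ) : ℤ) ∣ 2 * (4 * a x.1 ^ 3 + 27 * b x.1 ^ 2) := by
    intro p hp x hx hdvd
    apply hp
    rw [hBad, Finset.mem_biUnion]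
    refine ⟨x, hx, ?_⟩
    rw [dif_pos hx, Set.Finite.mem_toFinset]
    exact hdvd
  refine ⟨Module.finrank ℚ K * C + (G * Module.finrank ℚ K * C0 +
    Bad.card * (Module.finrank ℚ K * G)), ?_⟩
  filter_upwards [hC, self_mem_nhdsWithin] with ε h1 h2 c hc
  have hε : (0 : ℝ) < ε := h2
  have hcB : ∀ x ∈ S, |c x| ≤ |B| := by
    intro x hx
    rw [abs_of_nonneg (hc x hx).1]
    exact (hc x hx).2.trans (le_abs_self B)
  have hbd : ∀ z : ι × ℝ → ℂ, (∀ x ∈ S, ‖z x‖ ≤ 2) → ‖∑ x ∈ S, (c x : ℂ) * z x‖ ^ 2 ≤ G := by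
    intro z hz
    refine pow_le_pow_left₀ (norm_nonneg _) ((norm_sum_le _ _).trans
      ((Finset.sum_le_card_nsmul _ _ (|B| * 2) fun x hx => ?_).trans
      (le_of_eq (nsmul_eq_mul _ _)))) 2
    rw [norm_mul, Complex.norm_real, Real.norm_eq_abs]
    exact mul_le_mul (hcB x hx) (hz x hx) (norm_nonneg _) (abs_nonneg _)
  have h3 := push_le (K := K) (φ := fun v => ‖∑ x ∈ S, (c x : ℂ) * uK a b x v‖ ^ 2)
    (ψ := fun p => ‖∑ x ∈ S, (c x : ℂ) * wP f x p‖ ^ 2) (G := G) (S := Bad)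
    (fun v => sq_nonneg _) (fun v => hbd _ fun x _ => norm_uK x v) (fun p => sq_nonneg _)
    (fun p => hbd _ fun x hx => norm_wP (hf' x hx).1 p) (fun p hp u => by
      congr 2
      refine Finset.sum_congr rfl fun x hx => ?_
      congr 1
      unfold uK wP zz
      rw [rE_kerPrime (hf' x hx) p (hbad p hp x hx) u]
      have hn : nm K (kerPrime p u).1.1 = (p : ℕ) := Pool.Agent.H341R2.nm_kerPrime p u
      rw [hn]) hε
  have h4 := h1 c hc
  have hD0 : (0 : ℝ) ≤ Module.finrank ℚ K := Nat.cast_nonneg _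
  have h5 := mul_le_mul_of_nonneg_left h4 hD0
  refine h3.trans ?_
  linarith

end

end Pool.Agent.Y149.LN
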