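import Pool.Agent.Y149.LN.Fam
import Pool.Agent.Y149.CR.Ord

/-! The main theorem for products with elliptic curves, on the edge line. -/

set_option autoImplicit false

namespace Pool.Agent.Y149.LN

open Complex Filter Topology NumberField IsDedekindDomain Polynomial
open Pool.Agent.W540.BE Pool.Agent.W353.L1
open Pool.Agent.H341R2 (lam lam_tendsto)
open Pool.Agent.W353.PV (tF)
open Pool.Agent.W353.EF (LFun)
open Pool.Agent.W353.EH (edgePoint size HasOrder)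
open Pool.Agent.Y722.EP (IsModular NotIsogenous rE)

section
variable {K : Type} [Field K] [NumberField K] {n : ℕ} {X : Set (MvPolynomial (Fin n) (𝓞 K))}
  {d : ℕ} {N : ℕ → ℕ} {j : ℕ} {ι : Type*} {a b : ι → ℤ}
  {B₀ B₁ B₂ : HeightOneSpectrum (𝓞 K) → ℂ[X]} {B : ι → HeightOneSpectrum (𝓞 K) → ℂ[X]}

/-- the size of `L(H^j(Y) ⊗ H¹(E_i))` -/
noncomputable def xs (j : ℕ) (B₀ B₁ : HeightOneSpectrum (𝓞 K) → ℂ[X])
    (B : ι → HeightOneSpectrum (𝓞 K) → ℂ[X]) (x : ι × ℝ) (ε : ℝ) : ℝ :=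
  size (j + 1) x.2 (B x.1) ε - size (j + 1) x.2 B₀ ε - size (j - 1) x.2 B₁ ε

/-- the mean square is at most the square of the Betti number -/
theorem square_le (hj : j ≤ 2 * d) (h₂ : IsSquare X d j (N j) B₂) {η : ℝ} (hη : 0 < η) :
    ∀ᶠ ε : ℝ in 𝓝[>] 0, size (2 * j) 0 B₂ ε ≤ (N j : ℝ) ^ 2 + η := by
  have hN : NormSys (nm K) := normSys
  have h1 := (square hj h₂).2
  have hb : ∀ v, |tF X d j (N j) K v ^ 2| ≤ (N j : ℝ) ^ 2 := fun v => by
    rw [abs_pow]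
    exact pow_le_pow_left₀ (abs_nonneg _) (abs_tr_le _ _ _) 2
  have l1 : Tendsto (fun ε : ℝ => (N j : ℝ) ^ 2 * ((EP (nm K) ε fun _ => 1) / lam ε)) (𝓝[>] 0)
      (𝓝 ((N j : ℝ) ^ 2 * 1)) := (EP_one K).const_mul _
  rw [mul_one] at l1
  filter_upwards [h1.eventually_const_lt (show -(η / 2) < (0 : ℝ) by linarith),
    l1.eventually_lt_const (show (N j : ℝ) ^ 2 < (N j : ℝ) ^ 2 + η / 2 by linarith),
    lam_tendsto.eventually_gt_atTop 0, self_mem_nhdsWithin] with ε h2 h3 h4 h5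
  have hε : (0 : ℝ) < ε := h5
  have h6 := (le_abs_self _).trans (Pool.Agent.Y149.CR.abs_EP_le hN hε hb)
  have h7 : (EP (nm K) ε fun v => tF X d j (N j) K v ^ 2) / lam ε ≤
      (N j : ℝ) ^ 2 * ((EP (nm K) ε fun _ => 1) / lam ε) := by
    rw [← mul_div_assoc]
    exact div_le_div_of_nonneg_right h6 h4.le
  linarith

/-- **The sizes.** -/
theorem main_size (hj : 1 ≤ j) (hjd : j + 1 ≤ 2 * d)
    (hΔ : ∀ i, 4 * a i ^ 3 + 27 * b i ^ 2 ≠ 0) (hmod : ∀ i, IsModular (a i) (b i))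
    (hne : ∀ i i', i ≠ i' → NotIsogenous (a i) (b i) (a i') (b i'))
    (h₀ : IsEuler X d (j + 1) (N (j + 1)) B₀) (h₁ : IsEuler X d (j - 1) (N (j - 1)) B₁)
    (h₂ : IsSquare X d j (N j) B₂) (hB : ∀ i, IsProduct X d N j (a i) (b i) (B i))
    (S : Finset (ι × ℝ)) {η : ℝ} (hη : 0 < η) :
    (∀ᶠ ε : ℝ in 𝓝[>] 0, ∑ x ∈ S, (max (xs j B₀ B₁ B x ε) 0) ^ 2 ≤
      Module.finrank ℚ K * size (2 * j) 0 B₂ ε + η) ∧
    (∀ᶠ ε : ℝ in 𝓝[>] 0, ∑ x ∈ S, (max (-xs j B₀ B₁ B x ε) 0) ^ 2 ≤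
      Module.finrank ℚ K * size (2 * j) 0 B₂ ε + η) := by
  have hN : NormSys (nm K) := normSys
  have hD : (0 : ℝ) < Module.finrank ℚ K := by exact_mod_cast Module.finrank_pos
  have hT : ∀ v, |tF X d j (N j) K v| ≤ (N j : ℝ) := fun v => abs_tr_le _ _ _
  have hT' : ∀ v, |-tF X d j (N j) K v| ≤ (N j : ℝ) := fun v => by rw [abs_neg]; exact hT v
  have hx : ∀ x ∈ S, Tendsto (fun ε : ℝ => (EP (nm K) ε fun v =>
      tF X d j (N j) K v * (uK a b x v).re) / lam ε - xs j B₀ B₁ B x ε) (𝓝[>] 0) (𝓝 0) := by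
    intro x _
    refine (link hj hjd (a x.1) (b x.1) x.2 h₀ h₁ (hB x.1)).2.congr fun ε => ?_
    have e1 : (EP (nm K) ε fun v => tF X d j (N j) K v * (rE (a x.1) (b x.1) v * zre x.2 v)) =
        EP (nm K) ε fun v => tF X d j (N j) K v * (uK a b x v).re :=
      Pool.Agent.Y677.SM.EP_congr fun v => by rw [uK_re]
    rw [e1]
    rfl
  have hx' : ∀ x ∈ S, Tendsto (fun ε : ℝ => (EP (nm K) ε fun v =>
      -tF X d j (N j) K v * (uK a b x v).re) / lam ε - -xs j B₀ B₁ B x ε) (𝓝[>] 0) (𝓝 0) := by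
    intro x hxS
    have h := (hx x hxS).neg
    rw [neg_zero] at h
    refine h.congr fun ε => ?_
    have e : (EP (nm K) ε fun v => -tF X d j (N j) K v * (uK a b x v).re) =
        -(EP (nm K) ε fun v => tF X d j (N j) K v * (uK a b x v).re) := by
      rw [← neg_one_mul (EP (nm K) ε fun v => tF X d j (N j) K v * (uK a b x v).re),
        ← EP_const_mul]
      exact Pool.Agent.Y677.SM.EP_congr fun v => by ring
    rw [e]
    ring
  have hV := sumK (K := K) S (fun x _ => hΔ x.1) (fun x _ => hmod x.1)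
    (fun x _ y _ hxy => hne x.1 y.1 hxy)
  have g1 := bessel_D hN lam_tendsto (EP_one K) S (uK a b) (fun v => tF X d j (N j) K v)
    hD (fun x v => norm_uK x v) hT hV (xs j B₀ B₁ B) hx (half_pos hη)
  have g2 := bessel_D hN lam_tendsto (EP_one K) S (uK a b) (fun v => -tF X d j (N j) K v)
    hD (fun x v => norm_uK x v) hT' hV (fun x ε => -xs j B₀ B₁ B x ε) hx' (half_pos hη)
  have h3 := (square (by omega) h₂).2
  have h4 : ∀ᶠ ε : ℝ in 𝓝[>] 0, (Module.finrank ℚ K : ℝ) *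
      ((EP (nm K) ε fun v => tF X d j (N j) K v ^ 2) / lam ε) ≤
      Module.finrank ℚ K * size (2 * j) 0 B₂ ε + η / 2 := by
    have h5 := h3.const_mul (Module.finrank ℚ K : ℝ)
    rw [mul_zero] at h5
    filter_upwards [h5.eventually_lt_const (half_pos hη)] with ε h6
    rw [mul_sub] at h6
    linarith
  refine ⟨?_, ?_⟩
  · filter_upwards [g1, h4] with ε h5 h6
    linarith
  · filter_upwards [g2, h4] with ε h5 h6
    simp only [neg_sq] at h5
    linarith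

/-- the order as a limit -/
theorem ord_lim {i : ℕ} {τ : ℝ} {B : HeightOneSpectrum (𝓞 K) → ℂ[X]} {r : ℤ}
    (hne : ∀ᶠ ε : ℝ in 𝓝[>] 0, LFun B (edgePoint i τ + ε) ≠ 0) (hr : HasOrder i τ B r) :
    Tendsto (size i τ B) (𝓝[>] 0) (𝓝 (-(r : ℝ))) := by
  obtain ⟨Λ, h1, h2, h3⟩ := hr
  have e0 : (edgePoint i τ).re = (i : ℝ) / 2 + 1 := by
    unfold edgePoint
    simp
  obtain ⟨m, hm1, hm2⟩ := Pool.Agent.Y149.CR.order_lim e0 hne ⟨h1, h2⟩
  rw [h3] at hm1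
  have h4 : r = m := by exact_mod_cast hm1
  rw [h4]
  exact hm2

/-- **The orders**: sums of squares. -/
theorem main_order (hj : 1 ≤ j) (hjd : j + 1 ≤ 2 * d)
    (hΔ : ∀ i, 4 * a i ^ 3 + 27 * b i ^ 2 ≠ 0) (hmod : ∀ i, IsModular (a i) (b i))
    (hne : ∀ i i', i ≠ i' → NotIsogenous (a i) (b i) (a i') (b i'))
    (h₀ : IsEuler X d (j + 1) (N (j + 1)) B₀) (h₁ : IsEuler X d (j - 1) (N (j - 1)) B₁)
    (h₂ : IsSquare X d j (N j) B₂) (hB : ∀ i, IsProduct X d N j (a i) (b i) (B i))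
    {r : ℝ} (hr : ∀ η : ℝ, 0 < η → ∃ᶠ ε : ℝ in 𝓝[>] 0, size (2 * j) 0 B₂ ε ≤ r + η)
    {T : Set (ι × ℝ)} {m₀ m₁ : ℝ → ℤ} {m : ι × ℝ → ℤ}
    (hm₀ : ∀ x ∈ T, HasOrder (j + 1) x.2 B₀ (m₀ x.2))
    (hm₁ : ∀ x ∈ T, HasOrder (j - 1) x.2 B₁ (m₁ x.2))
    (hm : ∀ x ∈ T, HasOrder (j + 1) x.2 (B x.1) (m x))
    (S : Finset (ι × ℝ)) (hS : ∀ x ∈ S, x ∈ T) :
    ∑ x ∈ S, (max ((m₀ x.2 + m₁ x.2 - m x : ℤ) : ℝ) 0) ^ 2 ≤ Module.finrank ℚ K * r ∧
    ∑ x ∈ S, (max ((m x - m₀ x.2 - m₁ x.2 : ℤ) : ℝ) 0) ^ 2 ≤ Module.finrank ℚ K * r := by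
  have hlim : ∀ x ∈ S, Tendsto (xs j B₀ B₁ B x) (𝓝[>] 0)
      (𝓝 ((m₀ x.2 + m₁ x.2 - m x : ℤ) : ℝ)) := by
    intro x hx
    have l1 := ord_lim (link hj hjd (a x.1) (b x.1) x.2 h₀ h₁ (hB x.1)).1 (hm x (hS x hx))
    have l2 := ord_lim (base (by omega) x.2 h₀).1 (hm₀ x (hS x hx))
    have l3 := ord_lim (base (by omega) x.2 h₁).1 (hm₁ x (hS x hx))
    refine (((l1.sub l2).sub l3).congr fun ε => rfl).trans (le_of_eq ?_)
    congr 1
    push_cast
    ring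
  have hcont1 : Continuous fun x : ℝ => (max x 0) ^ 2 := by fun_prop
  have hcont2 : Continuous fun x : ℝ => (max (-x) 0) ^ 2 := by fun_prop
  have hD : (0 : ℝ) < Module.finrank ℚ K := by exact_mod_cast Module.finrank_pos
  have hle : ∀ (F : ℝ → ℝ) (L : ℝ), Tendsto F (𝓝[>] 0) (𝓝 L) →
      (∀ η : ℝ, 0 < η → ∀ᶠ ε : ℝ in 𝓝[>] 0, F ε ≤
        Module.finrank ℚ K * size (2 * j) 0 B₂ ε + η) → L ≤ Module.finrank ℚ K * r := by
    intro F L hF hb
    refine le_of_forall_pos_le_add fun η hη => ?_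
    set D : ℝ := (Module.finrank ℚ K : ℝ) with hDdef
    have h1 := hb (η / 3) (by positivity)
    have h2 := hr (η / (3 * D)) (by positivity)
    have h3 := hF.eventually_const_lt (show L - η / 3 < L by linarith)
    obtain ⟨ε, h4, h5, h6⟩ := (h2.and_eventually (h1.and h3)).exists
    have h7 : D * size (2 * j) 0 B₂ ε ≤ D * (r + η / (3 * D)) := mul_le_mul_of_nonneg_left h4 hD.le
    have h8 : D * (r + η / (3 * D)) = D * r + η / 3 := by
      field_simp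
    linarith
  refine ⟨?_, ?_⟩
  · exact hle _ _ (tendsto_finsetSum S fun x hx => (hcont1.tendsto _).comp (hlim x hx))
      fun η hη => (main_size hj hjd hΔ hmod hne h₀ h₁ h₂ hB S hη).1
  · have h1 := hle _ _ (tendsto_finsetSum S fun x hx => (hcont2.tendsto _).comp (hlim x hx))
      fun η hη => (main_size hj hjd hΔ hmod hne h₀ h₁ h₂ hB S hη).2
    refine le_trans (le_of_eq (Finset.sum_congr rfl fun x _ => ?_)) h1
    congr 2
    push_cast
    ring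

/-- the number of exceptions from the sum of the squares -/
theorem ncard_le {A : Type*} {T : Set A} {g : A → ℤ} {R : ℕ}
    (h : ∀ S : Finset A, (∀ x ∈ S, x ∈ T) → ∑ x ∈ S, (max (g x : ℝ) 0) ^ 2 ≤ R) :
    {x ∈ T | 0 < g x}.Finite ∧ {x ∈ T | 0 < g x}.ncard ≤ R := by
  classical
  have key : ∀ S : Finset A, (∀ x ∈ S, x ∈ {x ∈ T | 0 < g x}) → S.card ≤ R := by
    intro S hS
    have h1 := h S fun x hx => (hS x hx).1
    have h2 : (S.card : ℝ) ≤ ∑ x ∈ S, (max (g x : ℝ) 0) ^ 2 := by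
      rw [Finset.card_eq_sum_ones, Nat.cast_sum]
      refine Finset.sum_le_sum fun x hx => ?_
      have h3 : (1 : ℤ) ≤ g x := (hS x hx).2
      have h4 : (1 : ℝ) ≤ g x := by exact_mod_cast h3
      have h5 : (1 : ℝ) ≤ max (g x : ℝ) 0 := h4.trans (le_max_left _ _)
      push_cast
      nlinarith
    exact_mod_cast h2.trans h1
  have hfin : {x ∈ T | 0 < g x}.Finite := by
    by_contra hinf
    obtain ⟨S, hS1, hS2⟩ := Set.Infinite.exists_subset_card_eq hinf (R + 1)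
    have h1 := key S fun x hx => hS1 hx
    omega
  refine ⟨hfin, ?_⟩
  have h1 := key hfin.toFinset fun x hx => hfin.mem_toFinset.1 hx
  rwa [← Set.ncard_eq_toFinset_card _ hfin] at h1

end

end Pool.Agent.Y149.LN
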