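import Pool.Agent.Y149.CR.Gram
import Pool.Agent.Y722.EP.Main

/-! Bessel's inequality over a number field, at all heights. -/

set_option autoImplicit false

namespace Pool.Agent.Y149.LN

open Complex Filter Topology ComplexConjugate NumberField IsDedekindDomain
  Pool.Agent.W401.Cheb Pool.Agent.W540.BE Pool.Agent.W353.L1
open Pool.Agent.H341R2 (lam lam_tendsto lam_bounded sysK)
open Pool.Agent.H921R2.TatePole (kerPrime C0)
open Pool.Agent.W353.TP (HX sysH EH_eq E_H card_hom_le)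
open Pool.Agent.W353.NF (EP_eq)
open Pool.Agent.Y722.EP (summable_E)
open Pool.Agent.Y149.CR (EP_mono')

section
variable {K : Type} [Field K] [NumberField K]

/-- the mean over the primes of `K` and the mean over the prime numbers -/
theorem push_le {φ : HeightOneSpectrum (𝓞 K) → ℝ} {ψ : Nat.Primes → ℝ} {G : ℝ} {S : Finset Nat.Primes}
    (hφ0 : ∀ v, 0 ≤ φ v) (hφ : ∀ v, φ v ≤ G) (hψ0 : ∀ p, 0 ≤ ψ p) (hψ : ∀ p, ψ p ≤ G)
    (h : ∀ p ∉ S, ∀ u : 𝓞 K →+* ZMod (p : ℕ), φ (kerPrime p u).1.1 = ψ p) {ε : ℝ} (hε : 0 < ε) :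
    EP (nm K) ε φ ≤ Module.finrank ℚ K * Pool.Agent.H341R2.E ε ψ +
      (G * Module.finrank ℚ K * C0 + S.card * (Module.finrank ℚ K * G)) := by
  classical
  set D : ℝ := (Module.finrank ℚ K : ℝ) with hD
  have hD0 : 0 ≤ D := Nat.cast_nonneg _
  have hG0 : 0 ≤ G := (hψ0 ⟨2, Nat.prime_two⟩).trans (hψ _)
  have hWb : ∀ v, |φ v| ≤ G := fun v => by rw [abs_of_nonneg (hφ0 v)]; exact hφ v
  have h3 := E_H hWb hε
  rw [EH_eq hε (B := G) (fun x => hWb _)] at h3
  rw [EP_eq]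
  have hP : (Pool.Agent.H341R2.E ε fun p => ∑ u : 𝓞 K →+* ZMod (p : ℕ), φ (kerPrime p u).1.1) ≤
      D * (Pool.Agent.H341R2.E ε ψ) + S.card * (D * G) := by
    have htb : ∀ p, |ψ p| ≤ G := fun p => by rw [abs_of_nonneg (hψ0 p)]; exact hψ p
    have hub : ∀ p : Nat.Primes, ∑ u : 𝓞 K →+* ZMod (p : ℕ), φ (kerPrime p u).1.1 ≤ D * G := by
      intro p
      refine (Finset.sum_le_card_nsmul _ _ G fun u _ => hφ _).trans ?_
      rw [nsmul_eq_mul, Finset.card_univ]
      refine mul_le_mul_of_nonneg_right ?_ hG0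
      rw [hD]
      exact_mod_cast card_hom_le (K := K) p
    have hu0 : ∀ p : Nat.Primes, 0 ≤ ∑ u : 𝓞 K →+* ZMod (p : ℕ), φ (kerPrime p u).1.1 :=
      fun p => Finset.sum_nonneg fun u _ => hφ0 _
    have hs1 := summable_E (B := D * G) (φ := fun p : Nat.Primes => ∑ u : 𝓞 K →+* ZMod (p : ℕ),
        φ (kerPrime p u).1.1) (fun p => by
      rw [abs_of_nonneg (hu0 p)]; exact hub p) hε
    have hs2 := summable_E (φ := ψ) htb hε
    have hle : ∀ p : Nat.Primes, (∑ u : 𝓞 K →+* ZMod (p : ℕ), φ (kerPrime p u).1.1) *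
        ((p : ℕ) : ℝ) ^ (-(1 + ε)) ≤
        D * (ψ p * ((p : ℕ) : ℝ) ^ (-(1 + ε))) + (if p ∈ S then D * G else 0) := by
      intro p
      have hw0 : 0 ≤ ((p : ℕ) : ℝ) ^ (-(1 + ε)) := by positivity
      have hw1 : ((p : ℕ) : ℝ) ^ (-(1 + ε)) ≤ 1 :=
        Real.rpow_le_one_of_one_le_of_nonpos (by exact_mod_cast p.2.one_le) (by linarith)
      by_cases hp : p ∈ S
      · rw [if_pos hp]
        have q1 : (∑ u : 𝓞 K →+* ZMod (p : ℕ), φ (kerPrime p u).1.1) *
            ((p : ℕ) : ℝ) ^ (-(1 + ε)) ≤ D * G := by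
          calc _ ≤ (D * G) * 1 := mul_le_mul (hub p) hw1 hw0 (by positivity)
            _ = D * G := mul_one _
        have q2 : 0 ≤ D * (ψ p * ((p : ℕ) : ℝ) ^ (-(1 + ε))) :=
          mul_nonneg hD0 (mul_nonneg (hψ0 p) hw0)
        linarith
      · rw [if_neg hp, add_zero, ← mul_assoc]
        refine mul_le_mul_of_nonneg_right ?_ hw0
        rw [Finset.sum_congr rfl fun u _ => h p hp u, Finset.sum_const, nsmul_eq_mul,
          Finset.card_univ]
        refine mul_le_mul_of_nonneg_right ?_ (hψ0 p)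
        rw [hD]
        exact_mod_cast card_hom_le (K := K) p
    unfold Pool.Agent.H341R2.E
    have hs3 : Summable fun p : Nat.Primes => if p ∈ S then D * G else 0 :=
      summable_of_ne_finset_zero (s := S) fun p hp => if_neg hp
    refine (hs1.tsum_le_tsum hle ((hs2.mul_left D).add hs3)).trans (le_of_eq ?_)
    rw [(hs2.mul_left D).tsum_add hs3, tsum_mul_left, tsum_eq_sum (s := S) fun p hp => if_neg hp,
      Finset.sum_congr rfl fun p hp => if_pos hp, Finset.sum_const, nsmul_eq_mul]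
  have h4 := (abs_le.1 h3).2
  linarith

end

end Pool.Agent.Y149.LN
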